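import Pool.Agent.N639.FS.Stm
import Pool.Agent.Y933.KD.Leb2

/-!
# Two windows of a random real number are equal with probability `b ^ (-w)`
-/

set_option autoImplicit false

namespace Pool.Agent.N346.FSL3

open Finset Real MeasureTheory Pool.Agent.Y933.KD

theorem digit {b : ℕ} (hb : 1 ≤ b) (w n : ℕ) {x : ℝ} (hx : 0 ≤ x) :
    wd b (w + 1) n x = wd b 1 (n + w) x + b * wd b w n x := by
  have hb' : (0 : ℝ) < b := by exact_mod_cast hb
  rw [wd_eq_mod hb (w + 1) n hx, wd_eq_mod hb 1 (n + w) hx, wd_eq_mod hb w n hx]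
  have h1 : ⌊(b : ℝ) ^ (n + w) * x⌋₊ = ⌊(b : ℝ) ^ (n + w + 1) * x⌋₊ / b := by
    rw [← Nat.floor_div_natCast]
    congr 1
    rw [pow_succ]
    field_simp
  have h2 : b ^ (w + 1) = b * b ^ w := by rw [pow_succ, mul_comm]
  rw [h1, ← Nat.add_assoc, pow_one, h2, Nat.mod_mul]

/-- the indicator -/
noncomputable def E (b w i j : ℕ) (x : ℝ) : ℝ := if wd b w i x = wd b w j x then 1 else 0

/-- the indicator of a digit -/
noncomputable def Dg (b n a : ℕ) (x : ℝ) : ℝ := if wd b 1 n x = a then 1 else 0

theorem E_meas (b w i j : ℕ) : Measurable (E b w i j) := by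
  unfold E
  exact Measurable.ite (measurableSet_eq_fun (measurable_wd b w i) (measurable_wd b w j))
    measurable_const measurable_const

theorem Dg_meas (b n a : ℕ) : Measurable (Dg b n a) := by
  unfold Dg
  exact Measurable.ite (measurableSet_eq_fun (measurable_wd b 1 n) measurable_const)
    measurable_const measurable_const

theorem E_abs (b w i j : ℕ) (x : ℝ) : |E b w i j x| ≤ 1 := by
  unfold E
  split_ifs <;> simp

theorem Dg_abs (b n a : ℕ) (x : ℝ) : |Dg b n a x| ≤ 1 := by
  unfold Dg
  split_ifs <;> simp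

theorem integ {f : ℝ → ℝ} (hf : Measurable f) (h : ∀ x, |f x| ≤ 1) : Integrable f Leb :=
  Integrable.of_bound hf.aestronglyMeasurable 1 (Filter.Eventually.of_forall fun x => by
    rw [Real.norm_eq_abs]; exact h x)

theorem mul_abs {f g : ℝ → ℝ} (hf : ∀ x, |f x| ≤ 1) (hg : ∀ x, |g x| ≤ 1) (x : ℝ) :
    |f x * g x| ≤ 1 := by
  rw [abs_mul]
  exact mul_le_one₀ (hf x) (abs_nonneg _) (hg x)

theorem E_succ {b : ℕ} (hb : 1 ≤ b) (w i j : ℕ) {x : ℝ} (hx : 0 ≤ x) :
    E b (w + 1) i j x = ∑ a ∈ range b, (E b w i j x * Dg b (i + w) a x) *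
      Dg b 0 a (Tb b (j + w) x) := by
  have h0 : ∀ a, Dg b 0 a (Tb b (j + w) x) = Dg b (j + w) a x := by
    intro a
    unfold Dg
    rw [← wd_add, Nat.add_zero]
  simp only [h0]
  have hi : wd b 1 (i + w) x < b := by
    have := wd_lt hb 1 (i + w) x
    rwa [pow_one] at this
  have hj : wd b 1 (j + w) x < b := by
    have := wd_lt hb 1 (j + w) x
    rwa [pow_one] at this
  rw [sum_eq_single (wd b 1 (i + w) x)]
  · unfold E Dg
    rw [digit hb w i hx, digit hb w j hx]
    by_cases h1 : wd b w i x = wd b w j x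
    · rw [h1, if_pos rfl, if_pos rfl]
      by_cases h2 : wd b 1 (i + w) x = wd b 1 (j + w) x
      · rw [if_pos (by rw [h2]), if_pos h2.symm]
        norm_num
      · rw [if_neg (fun h => h2 (by omega)), if_neg (fun h => h2 h.symm)]
        norm_num
    · rw [if_neg h1, if_neg]
      · norm_num
      · intro h
        apply h1
        have e1 : (wd b 1 (i + w) x + b * wd b w i x) / b = wd b w i x := by
          rw [Nat.add_mul_div_left _ _ (by omega), Nat.div_eq_of_lt hi, zero_add]
        have e2 : (wd b 1 (j + w) x + b * wd b w j x) / b = wd b w j x := by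
          rw [Nat.add_mul_div_left _ _ (by omega), Nat.div_eq_of_lt hj, zero_add]
        rw [← e1, ← e2, h]
  · intro a _ ha
    unfold Dg
    rw [if_neg (fun h => ha h.symm)]
    ring
  · intro h
    exact absurd (mem_range.2 hi) h

theorem E_sum {b : ℕ} (hb : 1 ≤ b) (w i j : ℕ) (x : ℝ) :
    ∑ a ∈ range b, E b w i j x * Dg b (i + w) a x = E b w i j x := by
  have hi : wd b 1 (i + w) x < b := by
    have := wd_lt hb 1 (i + w) x
    rwa [pow_one] at this
  rw [← mul_sum]
  have : ∑ a ∈ range b, Dg b (i + w) a x = 1 := by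
    unfold Dg
    rw [Finset.sum_ite_eq, if_pos (mem_range.2 hi)]
  rw [this, mul_one]

theorem int_Dg {b : ℕ} (hb : 1 ≤ b) {a : ℕ} (ha : a < b) : ∫ x, Dg b 0 a x ∂Leb = 1 / b := by
  have h := int_word hb 1 0 (fun c => if c = a then (1 : ℝ) else 0)
  unfold Dg
  rw [h, pow_one, pow_one, Finset.sum_ite_eq', if_pos (mem_range.2 ha)]

theorem int_E {b : ℕ} (hb : 1 ≤ b) {i j : ℕ} (hij : i < j) (w : ℕ) :
    ∫ x, E b w i j x ∂Leb = 1 / (b : ℝ) ^ w := by
  induction w with
  | zero =>
    have h : ∀ x, E b 0 i j x = 1 := by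
      intro x
      have h1 := wd_lt hb 0 i x
      have h2 := wd_lt hb 0 j x
      rw [pow_zero] at h1 h2
      unfold E
      rw [if_pos (by omega)]
    simp [h]
  | succ w ih =>
    have hdep : ∀ a, Dep b (j + w) (fun x => E b w i j x * Dg b (i + w) a x) := by
      intro a
      have d1 : Dep b (j + w) (E b w i j) :=
        (dep_wd hb (w := w) (n := i) (p := j + w) (by omega)).comp₂
          (dep_wd hb (w := w) (n := j) (p := j + w) (by omega))
          (fun u v => if u = v then (1 : ℝ) else 0)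
      have d2 : Dep b (j + w) (Dg b (i + w) a) :=
        (dep_wd hb (w := 1) (n := i + w) (p := j + w) (by omega)).comp
          (fun u => if u = a then (1 : ℝ) else 0)
      exact d1.comp₂ d2 (fun u v => u * v)
    calc ∫ x, E b (w + 1) i j x ∂Leb
        = ∫ x, ∑ a ∈ range b, (E b w i j x * Dg b (i + w) a x) *
            Dg b 0 a (Tb b (j + w) x) ∂Leb := int_Leb_congr' fun x hx => E_succ hb w i j hx.1
      _ = ∑ a ∈ range b, ∫ x, (E b w i j x * Dg b (i + w) a x) *
            Dg b 0 a (Tb b (j + w) x) ∂Leb := by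
          refine integral_finsetSum _ fun a _ => integ ?_ ?_
          · exact ((E_meas b w i j).mul (Dg_meas b (i + w) a)).mul
              ((Dg_meas b 0 a).comp (measurable_Tb _ _))
          · exact mul_abs (mul_abs (E_abs _ _ _ _) (Dg_abs _ _ _)) (fun x => Dg_abs _ _ _ _)
      _ = ∑ a ∈ range b, (∫ x, E b w i j x * Dg b (i + w) a x ∂Leb) * (1 / b) := by
          refine sum_congr rfl fun a ha => ?_
          rw [renewal_real hb (hdep a) (Dg_meas b 0 a) (C := 1) (Dg_abs _ _ _),
            int_Dg hb (mem_range.1 ha)]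
      _ = (∫ x, ∑ a ∈ range b, E b w i j x * Dg b (i + w) a x ∂Leb) * (1 / b) := by
          rw [← sum_mul]
          congr 1
          refine (integral_finsetSum _ fun a _ => integ ?_ ?_).symm
          · exact (E_meas b w i j).mul (Dg_meas b (i + w) a)
          · exact mul_abs (E_abs _ _ _ _) (Dg_abs _ _ _)
      _ = 1 / (b : ℝ) ^ (w + 1) := by
          simp only [E_sum hb]
          rw [ih, pow_succ, one_div_mul_one_div]

theorem l3 : Pool.Agent.N639.FS.St_L3 := by
  intro b w i j hb hij
  have hm : MeasurableSet {x | wd b w i x = wd b w j x} :=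
    measurableSet_eq_fun (measurable_wd b w i) (measurable_wd b w j)
  rw [← int_E hb hij w, ← integral_indicator_one hm]
  refine integral_congr_ae (Filter.Eventually.of_forall fun x => ?_)
  unfold E
  by_cases h : wd b w i x = wd b w j x
  · rw [if_pos h, Set.indicator_of_mem (by exact h), Pi.one_apply]
  · rw [if_neg h, Set.indicator_of_notMem (by exact h)]

end Pool.Agent.N346.FSL3
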