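import Pool.Agent.N906.KG.Grid
import Pool.Agent.N403.RS.LowC
import Pool.Agent.N691.RS_COSET
import Pool.Agent.N803.RS_CNT

/-!
# Project KG, LOWQ: many points with given divisors
-/

set_option autoImplicit false
set_option linter.unusedSectionVars false
set_option linter.unusedVariables false

namespace Pool.Agent.N346.KG

open NumberField IsDedekindDomain Finset Filter Topology Pool.Agent.H691R3 Pool.Agent.W223.AK
open Pool.Agent.N906.KG
open Pool.Agent.N906.RS (S_CNT S_COSET)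
open Pool.Agent.N403.RS (Od Nv_zpow_inj exists_od BU BU_finite one_mem_BU idl idl_ne absNorm_idl
  idl_le fv_of_mem_idl cnt_idl euler euler_div tail yw yw_nonneg yw_le prod_yw)

variable {K : Type} [Field K] [NumberField K]

/-! ### Pairs of integers -/

/-- the data of a pair of integers -/
structure Pr2 (R : ℝ) (a b : K) (oa ob : Idl K) : Prop where
  a0 : a ≠ 0
  b0 : b ≠ 0
  oa : Od a oa
  ob : Od b ob
  ua : ∀ w : InfinitePlace K, w a ≤ R
  ub : ∀ w : InfinitePlace K, w b ≤ R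
  lb : ∀ w : InfinitePlace K, R / 2 ≤ w b

section

variable {R : ℝ} {a b : K} {oa ob : Idl K}

theorem Pr2.max_eq (h : Pr2 R a b oa ob) (v : Pr K) :
    max (fv v a) (fv v b) = (Nv v) ^ (-((oa ⊓ ob) v : ℤ)) := by
  rw [h.oa v, h.ob v]
  have hm := (zpow_right_strictMono₀ (Nv_one_lt v)).monotone
  rw [← hm.map_max]
  congr 1
  rw [Finsupp.inf_apply]
  push_cast
  rw [max_neg_neg]

theorem Pr2.max_div (h : Pr2 R a b oa ob) (v : Pr K) :
    max (fv v (a / b)) 1 = (Nv v) ^ (-((oa ⊓ ob) v : ℤ)) / fv v b := by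
  have hb := (fv v).pos h.b0
  rw [← h.max_eq v, map_div₀, ← max_div_div_right hb.le, div_self hb.ne']

theorem Pr2.hr_le (h : Pr2 R a b oa ob) (hR : 0 < R) :
    hr (aff (a / b)) ≤ (Module.finrank ℚ K : ℝ) * Real.log R - len (oa ⊓ ob) := by
  classical
  have hb := h.b0
  have hab : a / b ≠ 0 := div_ne_zero h.a0 h.b0
  set s : Finset (Pr K) := (fv_support_finite hb).toFinset ∪ (fv_support_finite hab).toFinset ∪
    (oa ⊓ ob).support with hs
  have hd : Disjoint (∅ : Finset (Pr K)) s := Finset.disjoint_empty_left s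
  have h1 : ∀ v, v ∉ (∅ : Finset (Pr K)) → v ∉ s → fv v b = 1 := by
    intro v _ hv
    by_contra hcon
    apply hv
    rw [hs, Finset.mem_union, Finset.mem_union]
    left; left
    rw [Set.Finite.mem_toFinset]
    exact hcon
  have h2 : ∀ v, v ∉ (∅ : Finset (Pr K)) → v ∉ s → fv v (a / b) ≤ 1 := by
    intro v _ hv
    by_contra hcon
    apply hv
    rw [hs, Finset.mem_union, Finset.mem_union]
    left; right
    rw [Set.Finite.mem_toFinset]
    exact fun h => hcon h.le
  have h3 := product_formula ∅ hb s h1 hd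
  have h4 : hr (aff (a / b)) = _ := ht_eq ∅ (a / b) s h2 hd
  have hsupp : (oa ⊓ ob).support ⊆ s := Finset.subset_union_right
  have h5 : ∑ v ∈ s, Real.log (max (fv v (a / b)) 1) = -len (oa ⊓ ob) - ∑ v ∈ s, Real.log (fv v b) := by
    rw [len_eq_sum hsupp, ← Finset.sum_neg_distrib, ← Finset.sum_sub_distrib]
    refine Finset.sum_congr rfl fun v _ => ?_
    rw [h.max_div v, Real.log_div (zpow_pos (Nv_pos v) _).ne' ((fv v).pos hb).ne', Real.log_zpow]
    push_cast
    ring
  have h6 : ∑ v ∈ Spl (∅ : Finset (Pr K)), mt v * Real.log (max (av v (a / b)) 1) ≤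
      (Module.finrank ℚ K : ℝ) * Real.log R - ∑ v ∈ Spl (∅ : Finset (Pr K)), mt v * Real.log (av v b) := by
    rw [sum_Spl, sum_Spl]
    simp only [mt_inl, av_inl, Finset.sum_empty, add_zero]
    rw [← InfinitePlace.sum_mult_eq, Nat.cast_sum, Finset.sum_mul, ← Finset.sum_sub_distrib]
    refine Finset.sum_le_sum fun w _ => ?_
    rw [← mul_sub]
    refine mul_le_mul_of_nonneg_left ?_ (Nat.cast_nonneg _)
    have hwb : 0 < w b := w.1.pos hb
    have h7 : max (w (a / b)) 1 ≤ R / w b := by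
      rw [map_div₀]
      refine max_le (div_le_div_of_nonneg_right (h.ua w) hwb.le) ?_
      rw [one_le_div hwb]
      exact h.ub w
    rw [← Real.log_div hR.ne' hwb.ne']
    exact Real.log_le_log (lt_max_of_lt_right one_pos) h7
  rw [h4, h5]
  linarith

end

/-- pairs with the same quotient and the same greatest common divisor -/
theorem fiber {R : ℝ} (hR : 0 < R) (Q : Finset (K × K)) (oo : K × K → Idl K × Idl K)
    (hQ : ∀ q ∈ Q, Pr2 R q.1 q.2 (oo q).1 (oo q).2) (x : K) (g : Idl K)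
    (hx : ∀ q ∈ Q, q.1 / q.2 = x) (hg : ∀ q ∈ Q, (oo q).1 ⊓ (oo q).2 = g) :
    Q.card ≤ (BU K).ncard := by
  classical
  rcases Q.eq_empty_or_nonempty with rfl | ⟨q₀, hq₀⟩
  · simp
  have hp₀ := hQ q₀ hq₀
  have hinj : Set.InjOn (fun q : K × K => q.2 / q₀.2) (Q : Set (K × K)) := by
    intro q hq q' hq' h
    have h0 := hp₀.b0
    have h1 : q.2 = q'.2 := by
      have h2 : q.2 / q₀.2 = q'.2 / q₀.2 := h
      rwa [div_left_inj' h0] at h2
    have h2 : q.1 = q'.1 := by
      have e1 := hx q hq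
      have e2 := hx q' hq'
      rw [div_eq_iff (hQ q hq).b0] at e1
      rw [div_eq_iff (hQ q' hq').b0] at e2
      rw [e1, e2, h1]
    exact Prod.ext h2 h1
  rw [← Set.ncard_coe_finset Q, ← hinj.ncard_image]
  refine Set.ncard_le_ncard ?_ (BU_finite K)
  rintro _ ⟨q, hq, rfl⟩
  have hp := hQ q hq
  refine ⟨fun v => ?_, fun w => ?_⟩
  · have h1 := hp.max_div v
    have h2 := hp₀.max_div v
    rw [hx q hq, hg q hq] at h1
    rw [hx q₀ hq₀, hg q₀ hq₀, h1] at h2
    have hb := (fv v).pos hp.b0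
    have hb₀ := (fv v).pos hp₀.b0
    have hz := zpow_pos (Nv_pos v) (-(g v : ℤ))
    rw [div_eq_div_iff hb.ne' hb₀.ne'] at h2
    have h3 := mul_left_cancel₀ hz.ne' h2
    simp only [map_div₀]
    rw [h3, div_self hb.ne']
  · simp only [map_div₀]
    have h0 : 0 < w q₀.2 := w.1.pos hp₀.b0
    have h1 := hp.ub w
    have h2 := hp₀.lb w
    refine (div_le_iff₀ h0).2 ?_
    linarith

/-! ### The forms -/

section forms

variable {q : ℕ} {α : Fin q → K × K} {S : Finset (Pr K)}

theorem wedge_ne {x : K} (hx : Of α x) (l : Fin q) :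
    (aff x).1 * (α l).2 - (aff x).2 * (α l).1 ≠ 0 := by
  show x * (α l).2 - 1 * (α l).1 ≠ 0
  rw [one_mul]
  exact hx l

/-- existence of the ideals of a point -/
theorem exists_isPQ (S : Finset (Pr K)) (hα : Al α) {x : K} (hx : Of α x) :
    ∃ P : Fin q → Idl K, IsP S α x P := by
  classical
  choose n hn using fun (l : Fin q) (v : Pr K) =>
    lamF_discrete v (aff_ne_zero x) (hα.1 l) (wedge_ne hx l)
  have hfin : ∀ l, (Function.support fun v : Pr K => if v ∈ S then 0 else n l v).Finite := by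
    intro l
    refine (lamF_support_finite (aff_ne_zero x) (hα.1 l) (wedge_ne hx l)).subset ?_
    intro v hv h
    apply hv
    show (if v ∈ S then 0 else n l v) = 0
    split_ifs
    · rfl
    · rw [hn l v] at h
      have h2 := log_Nv_pos v
      rcases mul_eq_zero.1 h with h3 | h3
      · exact_mod_cast h3
      · exact absurd h3 h2.ne'
  refine ⟨fun l => Finsupp.ofSupportFinite _ (hfin l), ?_, ?_⟩
  · intro l v hv
    show (if v ∈ S then 0 else n l v) = 0
    rw [if_pos hv]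
  · intro l v hv
    have : (Finsupp.ofSupportFinite _ (hfin l)) v = n l v := by
      show (if v ∈ S then 0 else n l v) = _
      rw [if_neg hv]
    rw [this]
    exact hn l v

/-- the ideals of the point given by a pair -/
theorem le_isP {R : ℝ} {a b : K} {oa ob : Idl K} (h : Pr2 R a b oa ob) (hα : Al α)
    (hG : Gd S α) (hx : Of α (a / b)) {P : Fin q → Idl K} (hP : IsP S α (a / b) P) {l : Fin q}
    {v : Pr K} (hv : v ∉ S) {n : ℕ}
    (hn : fv v (a * (α l).2 - b * (α l).1) ≤ (Nv v) ^ (-(n : ℤ))) :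
    n ≤ (oa ⊓ ob) v + P l v := by
  have h1 := hP.2 l v hv
  have hb := (fv v).pos h.b0
  have hb0 := h.b0
  have h0 : a * (α l).2 - b * (α l).1 ≠ 0 := by
    intro h0
    apply hx l
    have e : a / b * (α l).2 - (α l).1 = (a * (α l).2 - b * (α l).1) / b := by
      field_simp
    rw [e, h0, zero_div]
  have h2 := (fv v).pos h0
  have h3 : a / b * (α l).2 - 1 * (α l).1 = (a * (α l).2 - b * (α l).1) / b := by
    field_simp
  have h4 : (P l v : ℝ) * Real.log (Nv v) =
      -(((oa ⊓ ob) v : ℝ) * Real.log (Nv v)) - Real.log (fv v (a * (α l).2 - b * (α l).1)) := by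
    rw [← h1]
    show lamA (fv v) (aff (a / b)) (α l) = _
    rw [lamA_eq (fv v) (aff_ne_zero _) (hα.1 l) (wedge_ne hx l)]
    show Real.log (max (fv v (a / b)) (fv v 1)) + Real.log (max (fv v (α l).1) (fv v (α l).2)) -
      Real.log (fv v (a / b * (α l).2 - 1 * (α l).1)) = _
    rw [map_one, (hG v hv).1 l, Real.log_one, h3, h.max_div v, map_div₀,
      Real.log_div (zpow_pos (Nv_pos v) _).ne' hb.ne', Real.log_div h2.ne' hb.ne', Real.log_zpow]
    push_cast
    ring
  have h5 := Real.log_le_log h2 hn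
  rw [Real.log_zpow] at h5
  push_cast at h5
  have h6 := log_Nv_pos v
  have h7 : (n : ℝ) * Real.log (Nv v) ≤ (((oa ⊓ ob) v : ℝ) + P l v) * Real.log (Nv v) := by
    rw [add_mul, h4]
    linarith
  have h8 := le_of_mul_le_mul_right h7 h6
  exact_mod_cast h8

end forms

/-! ### Counting -/

section count

variable {q : ℕ}

theorem mem_sp {D : Fin q → Idl K} {v : Pr K} : v ∈ sp D ↔ ∃ l, D l v ≠ 0 := by
  classical
  unfold sp
  simp

theorem tl_sub {D : Fin q → Idl K} (hD : ∀ l l', l ≠ l' → Cop (D l) (D l')) (g : Idl K) :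
    tl D - tl (fun l => D l - g) ≤ ∑ v ∈ sp D, (g v : ℝ) * Real.log (Nv v) := by
  classical
  have hsum : ∑ v ∈ sp D, (g v : ℝ) * Real.log (Nv v) =
      ∑ l, ∑ v ∈ (D l).support, (g v : ℝ) * Real.log (Nv v) := by
    unfold sp
    rw [Finset.sum_biUnion]
    intro l _ l' _ hl
    rw [Function.onFun, Finset.disjoint_left]
    intro v hv hv'
    rcases hD l l' hl v with h | h
    · exact (Finsupp.mem_support_iff.mp hv) h
    · exact (Finsupp.mem_support_iff.mp hv') h
  rw [hsum]
  unfold tl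
  rw [← Finset.sum_sub_distrib]
  refine Finset.sum_le_sum fun l _ => ?_
  have hs : (D l - g).support ⊆ (D l).support := by
    intro v hv
    rw [Finsupp.mem_support_iff, Finsupp.tsub_apply] at hv
    rw [Finsupp.mem_support_iff]
    omega
  rw [len_eq_sum hs, len, ← Finset.sum_sub_distrib]
  refine Finset.sum_le_sum fun v _ => ?_
  rw [← sub_mul]
  refine mul_le_mul_of_nonneg_right ?_ (log_Nv_pos v).le
  rw [Finsupp.tsub_apply]
  have : (D l v : ℝ) ≤ ((D l v - g v : ℕ) : ℝ) + g v := by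
    have h : D l v ≤ (D l v - g v) + g v := by omega
    exact_mod_cast h
  linarith

/-- the sum of the weights of the bad divisors -/
theorem sum_bad {D : Fin q → Idl K} {CN η Z : ℝ} (hCN : 0 ≤ CN)
    (hN : ∀ s : Finset (Pr K), ∑ v ∈ s, ((Nv v) ^ 2)⁻¹ ≤ CN) (hr : rs D ≤ 1)
    (htail : ∀ G : Finset (Idl K), (∀ g ∈ G, Z < len g) → ∑ g ∈ G, Real.exp (-2 * len g) ≤ η)
    (G : Finset (Idl K)) (hG : ∀ g ∈ G, ¬ ((∀ v ∈ sp D, g v = 0) ∧ len g ≤ Z)) :
    ∑ g ∈ G, Real.exp (-2 * len g + ∑ v ∈ sp D, (g v : ℝ) * Real.log (Nv v)) ≤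
      rs D * Real.exp (2 + 2 * CN) + η := by
  classical
  set T := sp D with hT
  set s := T ∪ G.biUnion fun g => g.support with hs
  have hTs : T ⊆ s := Finset.subset_union_left
  have hGs : ∀ g ∈ G, g.support ⊆ s := fun g hg =>
    (Finset.subset_biUnion_of_mem (fun g : Idl K => g.support) hg).trans Finset.subset_union_right
  have hrs : ∑ v ∈ T, yw T v = rs D := by
    unfold rs
    refine Finset.sum_congr rfl fun v hv => ?_
    unfold yw
    rw [if_pos hv]
  have hys : ∑ v ∈ s, yw T v ≤ rs D + CN := by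
    rw [← hrs]
    have h1 : ∀ v ∈ s, yw T v ≤ (if v ∈ T then yw T v else 0) + ((Nv v) ^ 2)⁻¹ := by
      intro v _
      have := Nv_pos v
      split_ifs with h
      · have : 0 ≤ ((Nv v) ^ 2)⁻¹ := by positivity
        linarith
      · unfold yw
        rw [if_neg h, zero_add]
    refine (Finset.sum_le_sum h1).trans ?_
    rw [Finset.sum_add_distrib, ← Finset.sum_filter, Finset.filter_mem_eq_inter,
      Finset.inter_eq_right.2 hTs]
    have := hN s
    linarith
  rw [← Finset.sum_filter_add_sum_filter_not G (fun g => ∃ v ∈ T, g v ≠ 0)]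
  refine add_le_add ?_ ?_
  · have h1 : ∀ g ∈ G.filter (fun g => ∃ v ∈ T, g v ≠ 0),
        Real.exp (-2 * len g + ∑ v ∈ T, (g v : ℝ) * Real.log (Nv v)) = ∏ v ∈ s, yw T v ^ g v := by
      intro g hg
      rw [prod_yw T s hTs g (hGs g (Finset.mem_filter.1 hg).1)]
    rw [Finset.sum_congr rfl h1]
    refine (euler_div (yw T) (yw_nonneg T) (yw_le T) s T hTs _
      (fun g hg => hGs g (Finset.mem_filter.1 hg).1) (fun g hg => (Finset.mem_filter.1 hg).2)).trans ?_
    rw [hrs]
    have hr0 : 0 ≤ rs D := by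
      rw [← hrs]
      exact Finset.sum_nonneg fun v _ => yw_nonneg T v
    refine mul_le_mul_of_nonneg_left (Real.exp_le_exp.2 ?_) hr0
    linarith
  · have h1 : ∀ g ∈ G.filter (fun g => ¬ ∃ v ∈ T, g v ≠ 0),
        Real.exp (-2 * len g + ∑ v ∈ T, (g v : ℝ) * Real.log (Nv v)) = Real.exp (-2 * len g) := by
      intro g hg
      have h2 := (Finset.mem_filter.1 hg).2
      push Not at h2
      have h3 : ∑ v ∈ T, (g v : ℝ) * Real.log (Nv v) = 0 :=
        Finset.sum_eq_zero fun v hv => by rw [h2 v hv]; simp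
      rw [h3, add_zero]
    rw [Finset.sum_congr rfl h1]
    refine htail _ fun g hg => ?_
    have h2 := (Finset.mem_filter.1 hg).2
    push Not at h2
    by_contra h3
    exact hG g (Finset.mem_filter.1 hg).1 ⟨h2, not_lt.1 h3⟩

theorem core {α : Fin q → K × K} {S : Finset (Pr K)} (hα : Al α) (hGd : Gd S α) (hq : 1 ≤ q)
    (h1 : S_CELLQ K) (h3 : S_CNT K) (c₀ : ℝ) (hc₀ : 0 < c₀) :
    ∃ c₁ c C : ℝ, 0 < c₁ ∧ 0 < c ∧ 0 < C ∧ ∀ (X : ℝ) (D : Fin q → Idl K), 0 ≤ X →
      (∀ l l', l ≠ l' → Cop (D l) (D l')) → (∀ l, OffS S (D l)) →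
      rs D ≤ c₁ → ∀ (Q : Finset (K × K)) (oo : K × K → Idl K × Idl K),
      (∀ p ∈ Q, Pr2 (Real.exp (X / Module.finrank ℚ K)) p.1 p.2 (oo p).1 (oo p).2 ∧
        Of α (p.1 / p.2) ∧ ∀ l v, D l v ≠ 0 →
          fv v (p.1 * (α l).2 - p.2 * (α l).1) ≤ (Nv v) ^ (-(D l v : ℤ))) →
      c₀ * Real.exp (2 * X - tl D) ≤ Q.card → ∃ F : Finset K,
      (∀ x ∈ F, Of α x ∧ hr (aff x) ≤ X ∧ ∃ P, IsP S α x P ∧ ∀ l, D l ≤ P l) ∧
      c * Real.exp (2 * X - tl D) - C * Real.exp X ≤ F.card := by
  classical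
  obtain ⟨CI, hCI, hI⟩ := cnt_idl K
  obtain ⟨CN, hCN, -, hN⟩ := id h3
  obtain ⟨Cc, hCc, hcell⟩ := h1 q α S hα hGd
  have hN' : ∀ s : Finset (Pr K), ∑ v ∈ s, ((Nv v) ^ 2)⁻¹ ≤ CN := by
    intro s
    have := hN 1 s le_rfl fun v _ => Nv_one_lt v
    simpa using this
  set W : ℕ := (BU K).ncard with hW
  have hW1 : 1 ≤ W := by
    rw [hW, Nat.one_le_iff_ne_zero, Ne, Set.ncard_eq_zero (BU_finite K)]
    exact Set.nonempty_iff_ne_empty.1 ⟨1, one_mem_BU K⟩
  have hW0 : (0:ℝ) < W := by exact_mod_cast hW1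
  set η : ℝ := c₀ / (4 * W * Cc) with hη
  have hη0 : 0 < η := by positivity
  obtain ⟨Z, hZ0, htail⟩ := tail h3 η hη0
  set M : ℕ := ⌈CI * Real.exp Z⌉₊ with hM
  have hM0 : (0:ℝ) < M := by
    have : 0 < CI * Real.exp Z := mul_pos hCI (Real.exp_pos _)
    exact_mod_cast Nat.ceil_pos.2 this
  set c₁ : ℝ := min 1 (c₀ / (4 * W * Cc * Real.exp (2 + 2 * CN))) with hc₁
  have hc₁0 : 0 < c₁ := lt_min one_pos (by positivity)
  refine ⟨c₁, c₀ / (2 * W * M), Cc * CI / M, hc₁0, by positivity, by positivity, ?_⟩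
  intro X D hX hD hDS hr Q oo hQ hcard
  set E : ℝ := Real.exp (2 * X - tl D) with hE
  have hE0 : 0 < E := Real.exp_pos _
  set R : ℝ := Real.exp (X / Module.finrank ℚ K) with hR
  have hR0 : 0 < R := Real.exp_pos _
  have hlogR : (Module.finrank ℚ K : ℝ) * Real.log R = X := by
    rw [hR, Real.log_exp]
    have : (0:ℝ) < Module.finrank ℚ K := by exact_mod_cast Module.finrank_pos
    field_simp
  -- the map to points and divisors
  set φ : K × K → K × Idl K := fun p => (p.1 / p.2, (oo p).1 ⊓ (oo p).2) with hφ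
  set H := Q.image φ with hH
  have hQH : Q.card ≤ W * H.card := by
    refine Finset.card_le_mul_card_image Q W fun h _ => ?_
    refine fiber hR0 _ oo (fun p hp => (hQ p (Finset.mem_filter.1 hp).1).1) h.1 h.2 ?_ ?_
    · intro p hp
      have := (Finset.mem_filter.1 hp).2
      rw [← this]
    · intro p hp
      have := (Finset.mem_filter.1 hp).2
      rw [← this]
  -- properties of the elements of H
  have hprop : ∀ h ∈ H, Of α h.1 ∧ Pool.Agent.H691R3.hr (aff h.1) ≤ X - len h.2 ∧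
      ∃ P : Fin q → Idl K, IsP S α h.1 P ∧ ∀ l, D l ≤ h.2 + P l := by
    intro h hh
    obtain ⟨p, hp, rfl⟩ := Finset.mem_image.1 hh
    obtain ⟨hp1, hp2, hp3⟩ := hQ p hp
    refine ⟨hp2, ?_, ?_⟩
    · have := hp1.hr_le hR0
      rw [hlogR] at this
      exact this
    · obtain ⟨P, hP⟩ := exists_isPQ S hα hp2
      refine ⟨P, hP, fun l v => ?_⟩
      rw [Finsupp.add_apply]
      by_cases h0 : D l v = 0
      · rw [h0]
        exact Nat.zero_le _
      · have hv : v ∉ S := fun hv => h0 (hDS l v hv)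
        exact le_isP hp1 hα hGd hp2 hP hv (hp3 l v h0)
  set good : K × Idl K → Prop := fun h => (∀ v ∈ sp D, h.2 v = 0) ∧ len h.2 ≤ Z with hgood
  set F : Finset K := (H.filter good).image Prod.fst with hF
  refine ⟨F, ?_, ?_⟩
  · intro x hx
    obtain ⟨h, hh, rfl⟩ := Finset.mem_image.1 hx
    obtain ⟨hh1, hh2⟩ := Finset.mem_filter.1 hh
    obtain ⟨hpt, hht, P, hP, hDP⟩ := hprop h hh1
    refine ⟨hpt, ?_, P, hP, fun l v => ?_⟩
    · have := len_nonneg h.2
      linarith
    · have h4 := hDP l v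
      rw [Finsupp.add_apply] at h4
      by_cases h5 : D l v = 0
      · omega
      · have h6 := hh2.1 v (mem_sp.2 ⟨l, h5⟩)
        omega
  -- the good part
  have hgoodcard : (H.filter good).card ≤ M * F.card := by
    refine Finset.card_le_mul_card_image (H.filter good) M fun x _ => ?_
    set A := (H.filter good).filter fun h => h.1 = x with hA
    have hinj : Set.InjOn (Prod.snd : K × Idl K → Idl K) A := by
      intro a ha b hb hab
      have e1 := (Finset.mem_filter.1 ha).2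
      have e2 := (Finset.mem_filter.1 hb).2
      exact Prod.ext (e1.trans e2.symm) hab
    rw [← Finset.card_image_of_injOn hinj]
    have h4 := hI Z (A.image Prod.snd) hZ0 ?_
    · have h5 : ((A.image Prod.snd).card : ℝ) ≤ M := h4.trans (Nat.le_ceil _)
      exact_mod_cast h5
    · intro a ha
      obtain ⟨h, hh, rfl⟩ := Finset.mem_image.1 ha
      exact (Finset.mem_filter.1 (Finset.mem_filter.1 hh).1).2.2
  -- the bad part
  set B := H.filter fun h => ¬ good h with hB
  set G := B.image Prod.snd with hG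
  have hGlen : ∀ g ∈ G, len g ≤ X := by
    intro g hg
    obtain ⟨h, hh, rfl⟩ := Finset.mem_image.1 hg
    obtain ⟨-, hht, -⟩ := hprop h (Finset.mem_filter.1 hh).1
    have := hr_aff_nonneg h.1
    linarith
  have hBg : ∀ g ∈ G, ((B.filter fun h => h.2 = g).card : ℝ) ≤
      Cc * (E * Real.exp (-2 * len g + ∑ v ∈ sp D, (g v : ℝ) * Real.log (Nv v)) + 1) := by
    intro g hg
    set A := B.filter fun h => h.2 = g with hA
    have hinj : Set.InjOn (Prod.fst : K × Idl K → K) A := by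
      intro a ha b hb hab
      have e1 := (Finset.mem_filter.1 ha).2
      have e2 := (Finset.mem_filter.1 hb).2
      exact Prod.ext hab (e1.trans e2.symm)
    rw [← Finset.card_image_of_injOn hinj]
    have h4 := hcell (X - len g) (fun l => D l - g) (fun _ => ⟨0, hq⟩) (fun _ => 0)
      (A.image Prod.fst) (by linarith [hGlen g hg]) (fun _ _ => le_rfl) ?_ ?_
    · refine h4.trans (mul_le_mul_of_nonneg_left (add_le_add ?_ le_rfl) hCc.le)
      rw [hE, ← Real.exp_add, Real.exp_le_exp]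
      have := tl_sub hD g
      simp only [Finset.sum_const_zero, sub_zero]
      linarith
    · intro l v hv
      rw [Finsupp.tsub_apply, hDS l v hv]
      exact Nat.zero_sub _
    · intro x hx
      obtain ⟨h, hh, rfl⟩ := Finset.mem_image.1 hx
      obtain ⟨hh1, hh2⟩ := Finset.mem_filter.1 hh
      obtain ⟨hpt, hht, P, hP, hDP⟩ := hprop h (Finset.mem_filter.1 hh1).1
      refine ⟨hpt, ?_, fun v _ => ?_, P, hP, fun l => ?_⟩
      · rw [← hh2]
        exact hht
      · have := lam_ge v (aff_ne_zero h.1) (hα.1 ⟨0, hq⟩) (wedge_ne hpt ⟨0, hq⟩)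
        linarith
      · rw [← hh2]
        exact tsub_le_iff_left.2 (hDP l)
  have hBcard : (B.card : ℝ) ≤ Cc * (E * (c₁ * Real.exp (2 + 2 * CN) + η)) + Cc * (CI * Real.exp X) := by
    have h4 : (B.card : ℝ) = ∑ g ∈ G, ((B.filter fun h => h.2 = g).card : ℝ) := by
      rw [← Nat.cast_sum]
      congr 1
      exact Finset.card_eq_sum_card_image Prod.snd B
    rw [h4]
    refine (Finset.sum_le_sum hBg).trans ?_
    rw [← Finset.mul_sum, Finset.sum_add_distrib, ← Finset.mul_sum, Finset.sum_const, nsmul_eq_mul,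
      mul_one, mul_add]
    refine add_le_add (mul_le_mul_of_nonneg_left (mul_le_mul_of_nonneg_left ?_ hE0.le) hCc.le)
      (mul_le_mul_of_nonneg_left (hI X G hX hGlen) hCc.le)
    refine (sum_bad hCN.le hN' (hr.trans (min_le_left _ _)) htail G ?_).trans ?_
    · intro g hg
      obtain ⟨h, hh, rfl⟩ := Finset.mem_image.1 hg
      exact (Finset.mem_filter.1 hh).2
    · have := mul_le_mul_of_nonneg_right hr (Real.exp_pos (2 + 2 * CN)).le
      linarith
  -- conclusion
  have hsplit : (H.card : ℝ) = (H.filter good).card + B.card := by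
    have := Finset.card_filter_add_card_filter_not (s := H) good
    rw [← this]
    push_cast
    rfl
  have h5 : c₀ * E ≤ W * (H.card : ℝ) := by
    refine hcard.trans ?_
    exact_mod_cast hQH
  have h6 : ((H.filter good).card : ℝ) ≤ M * F.card := by exact_mod_cast hgoodcard
  have h7 : Cc * (E * (c₁ * Real.exp (2 + 2 * CN) + η)) ≤ c₀ / (2 * W) * E := by
    have h8 : c₁ * Real.exp (2 + 2 * CN) ≤ c₀ / (4 * W * Cc) := by
      have := mul_le_mul_of_nonneg_right (min_le_right 1 (c₀ / (4 * W * Cc * Real.exp (2 + 2 * CN))))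
        (Real.exp_pos (2 + 2 * CN)).le
      refine this.trans (le_of_eq ?_)
      have := Real.exp_pos (2 + 2 * CN)
      field_simp
    have h9 : c₁ * Real.exp (2 + 2 * CN) + η ≤ c₀ / (2 * W * Cc) := by
      have : c₀ / (2 * W * Cc) = c₀ / (4 * W * Cc) + c₀ / (4 * W * Cc) := by
        field_simp
        ring
      rw [this]
      linarith
    calc Cc * (E * (c₁ * Real.exp (2 + 2 * CN) + η)) ≤ Cc * (E * (c₀ / (2 * W * Cc))) :=
          mul_le_mul_of_nonneg_left (mul_le_mul_of_nonneg_left h9 hE0.le) hCc.le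
      _ = c₀ / (2 * W) * E := by field_simp
  have h10 : c₀ / W * E ≤ H.card := by
    rw [div_mul_eq_mul_div, div_le_iff₀ hW0]
    linarith
  have h11 : c₀ / (2 * W) * E - Cc * CI * Real.exp X ≤ M * F.card := by
    have : c₀ / W * E = c₀ / (2 * W) * E + c₀ / (2 * W) * E := by
      field_simp
      ring
    linarith
  have h12 : c₀ / (2 * W * M) * E - Cc * CI / M * Real.exp X =
      (c₀ / (2 * W) * E - Cc * CI * Real.exp X) / M := by
    field_simp
  rw [h12, div_le_iff₀ hM0]
  linarith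

end count

/-! ### Construction of the pairs -/

section constr

theorem exists_scale (z : K × K) :
    ∃ n A B : 𝓞 K, n ≠ 0 ∧ (A : K) = n * z.1 ∧ (B : K) = n * z.2 := by
  obtain ⟨a, s, hs, h1⟩ := IsFractionRing.div_surjective (𝓞 K) z.1
  obtain ⟨b, t, ht, h2⟩ := IsFractionRing.div_surjective (𝓞 K) z.2
  have hs0 : s ≠ 0 := nonZeroDivisors.ne_zero hs
  have ht0 : t ≠ 0 := nonZeroDivisors.ne_zero ht
  have hs1 : (s : K) ≠ 0 := RingOfIntegers.coe_ne_zero_iff.mpr hs0
  have ht1 : (t : K) ≠ 0 := RingOfIntegers.coe_ne_zero_iff.mpr ht0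
  refine ⟨s * t, a * t, b * s, mul_ne_zero hs0 ht0, ?_, ?_⟩
  · have e1 : ((a * t : 𝓞 K) : K) = (a : K) * (t : K) := map_mul _ _ _
    have e2 : ((s * t : 𝓞 K) : K) = (s : K) * (t : K) := map_mul _ _ _
    have e3 : (a : K) / (s : K) = z.1 := h1
    rw [e1, e2, ← e3]
    field_simp
  · have e1 : ((b * s : 𝓞 K) : K) = (b : K) * (s : K) := map_mul _ _ _
    have e2 : ((s * t : 𝓞 K) : K) = (s : K) * (t : K) := map_mul _ _ _
    have e3 : (b : K) / (t : K) = z.2 := h2
    rw [e1, e2, ← e3]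
    field_simp

theorem exists_z0 (T : Finset (Pr K)) :
    ∃ z₀ : ℝ, ∀ v : Pr K, z₀ ≤ Nv v → v ∉ T := by
  refine ⟨1 + ∑ v ∈ T, Nv v, fun v hv hvT => ?_⟩
  have := Finset.single_le_sum (f := fun v : Pr K => Nv v) (fun v _ => (Nv_pos v).le) hvT
  linarith

theorem inv_mod (v : Pr K) (A B : 𝓞 K) (hB : fv v (B : K) = 1) (k : ℕ) :
    ∃ t : 𝓞 K, t * B - A ∈ v.asIdeal ^ k := by
  have hB' : B ∉ v.asIdeal := by
    intro h
    have := (fv_lt_one_iff v).2 h
    linarith
  have hcop : IsCoprime (Ideal.span {B}) (v.asIdeal ^ k) := by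
    refine IsCoprime.pow_right ?_
    rw [Ideal.isCoprime_iff_sup_eq]
    by_contra hne
    have h2 := v.isMaximal.eq_of_le hne le_sup_right
    apply hB'
    rw [h2]
    exact Ideal.mem_sup_left (Ideal.mem_span_singleton_self B)
  obtain ⟨i, hi, j, hj, hij⟩ := Ideal.isCoprime_iff_exists.1 hcop
  obtain ⟨u, hu⟩ := Ideal.mem_span_singleton'.1 hi
  refine ⟨A * u, ?_⟩
  have h3 : A * u * B - A = -A * j := by linear_combination A * hu + A * hij
  rw [h3]
  exact Ideal.mul_mem_left _ _ hj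

theorem crt {q : ℕ} (A B : Fin q → 𝓞 K) (D : Fin q → Idl K)
    (hD : ∀ l l', l ≠ l' → Cop (D l) (D l')) (p : Fin q → Prop)
    (hB : ∀ l, p l → ∀ v, D l v ≠ 0 → fv v (B l : K) = 1) :
    ∃ y : 𝓞 K, ∀ l, p l → ∀ v, D l v ≠ 0 → y * B l - A l ∈ v.asIdeal ^ (D l v) := by
  classical
  have key : ∀ v : Pr K, ∃ t : 𝓞 K, ∀ l, p l → D l v ≠ 0 →
      t * B l - A l ∈ v.asIdeal ^ (D l v) := by
    intro v
    by_cases h : ∃ l, p l ∧ D l v ≠ 0
    · obtain ⟨l, hl, hlv⟩ := h
      obtain ⟨t, ht⟩ := inv_mod v (A l) (B l) (hB l hl v hlv) (D l v)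
      refine ⟨t, fun l' _ hl' => ?_⟩
      have : l' = l := by
        by_contra hne
        rcases hD l' l hne v with h1 | h1
        · exact hl' h1
        · exact hlv h1
      rw [this]
      exact ht
    · push Not at h
      exact ⟨0, fun l hl hlv => absurd (h l hl) hlv⟩
  choose t ht using key
  obtain ⟨y, hy⟩ := IsDedekindDomain.exists_forall_sub_mem_ideal (s := sp D)
    (fun v : Pr K => v.asIdeal) (fun v => ∑ l, D l v) (fun v _ => v.prime)
    (fun u _ v _ huv h => huv (HeightOneSpectrum.ext h)) (fun v => t v)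
  refine ⟨y, fun l hl v hv => ?_⟩
  have h1 := hy v (mem_sp.2 ⟨l, hv⟩)
  have h2 : y - t v ∈ v.asIdeal ^ (D l v) :=
    Ideal.pow_le_pow_right (Finset.single_le_sum (f := fun l => D l v)
      (fun _ _ => Nat.zero_le _) (Finset.mem_univ l)) h1
  have h3 : y * B l - A l = (y - t v) * B l + (t v * B l - A l) := by ring
  rw [h3]
  exact Ideal.add_mem _ (Ideal.mul_mem_right _ _ h2) (ht v l hl hv)

theorem lowq_pos (h1 : S_CELLQ K) (h2 : S_COSET K) (h3 : S_CNT K) {q : ℕ} {α : Fin q → K × K}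
    {S : Finset (Pr K)} (hq : 1 ≤ q) (hα : Al α) (hG : Gd S α) :
    ∃ c₁ c C z₀ : ℝ, 0 < c₁ ∧ 0 < c ∧ 0 < C ∧ ∀ (X : ℝ) (D : Fin q → Idl K), 0 ≤ X →
    (∀ l l', l ≠ l' → Cop (D l) (D l')) → (∀ l v, D l v ≠ 0 → v ∉ S ∧ z₀ ≤ Nv v) → rs D ≤ c₁ →
    ∃ F : Finset K, (∀ x ∈ F, Of α x ∧ hr (aff x) ≤ X ∧ ∃ P, IsP S α x P ∧ ∀ l, D l ≤ P l) ∧
      c * Real.exp (2 * X - tl D) - C * Real.exp X ≤ F.card := by
  classical
  obtain ⟨c, hc, hcos⟩ := h2
  obtain ⟨c₁, c', C', hc₁, hc', hC', hcore⟩ := core hα hG hq h1 h3 (c ^ 2 / 2) (by positivity)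
  choose n A B hn hA hB using fun l => exists_scale (α l)
  have hn' : ∀ l, (n l : K) ≠ 0 := fun l => RingOfIntegers.coe_ne_zero_iff.mpr (hn l)
  -- the exceptional primes
  obtain ⟨z₀, hT⟩ := exists_z0 (K := K) (Finset.univ.biUnion fun l : Fin q =>
    (fv_support_finite (hn' l)).toFinset ∪
      if h : (B l : K) ≠ 0 then (fv_support_finite h).toFinset else ∅)
  have hT1 : ∀ l v, z₀ ≤ Nv v → fv v (n l : K) = 1 := by
    intro l v hv
    by_contra hcon
    apply hT v hv
    rw [Finset.mem_biUnion]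
    refine ⟨l, Finset.mem_univ l, Finset.mem_union_left _ ?_⟩
    rw [Set.Finite.mem_toFinset]
    exact hcon
  have hT2 : ∀ l, (α l).2 ≠ 0 → ∀ v, z₀ ≤ Nv v → fv v (B l : K) = 1 := by
    intro l hl v hv
    have hBl : (B l : K) ≠ 0 := by
      rw [hB l]
      exact mul_ne_zero (hn' l) hl
    by_contra hcon
    apply hT v hv
    rw [Finset.mem_biUnion]
    refine ⟨l, Finset.mem_univ l, Finset.mem_union_right _ ?_⟩
    rw [dif_pos hBl, Set.Finite.mem_toFinset]
    exact hcon
  have hqr : (1:ℝ) ≤ q := by exact_mod_cast hq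
  have hq0 : (0:ℝ) < q := by linarith
  refine ⟨c₁, c', C' + c' * Real.exp (Real.log (2 * q / c)), z₀, hc₁, hc', by positivity, ?_⟩
  intro X D hX hD hDz hr
  by_cases hcase : X - Real.log (2 * q / c) < tl D
  · refine ⟨∅, by simp, ?_⟩
    have h4 : Real.exp (2 * X - tl D) ≤ Real.exp (Real.log (2 * q / c)) * Real.exp X := by
      rw [← Real.exp_add, Real.exp_le_exp]
      linarith
    have h5 := mul_le_mul_of_nonneg_left h4 hc'.le
    have h6 : 0 < C' * Real.exp X := mul_pos hC' (Real.exp_pos _)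
    simp only [Finset.card_empty, Nat.cast_zero]
    nlinarith
  push Not at hcase
  have hlog : Real.exp (Real.log (2 * q / c)) = 2 * q / c := Real.exp_log (by positivity)
  set d : ℕ := Module.finrank ℚ K with hd
  have hd0 : (0:ℝ) < d := by exact_mod_cast Module.finrank_pos
  set R : ℝ := Real.exp (X / d) with hR
  have hR1 : 1 ≤ R := Real.one_le_exp (div_nonneg hX hd0.le)
  have hR0 : 0 < R := Real.exp_pos _
  have hRd : R ^ d = Real.exp X := by
    rw [hR, ← Real.exp_nat_mul]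
    congr 1
    field_simp
  obtain ⟨Df, hDf⟩ : ∃ Df : Idl K, Df = ∑ l ∈ Finset.univ.filter (fun l => (α l).2 ≠ 0), D l :=
    ⟨_, rfl⟩
  obtain ⟨Di, hDi⟩ : ∃ Di : Idl K, Di = ∑ l ∈ Finset.univ.filter (fun l => ¬ (α l).2 ≠ 0), D l :=
    ⟨_, rfl⟩
  have htl : tl D = len Df + len Di := by
    rw [hDf, hDi, len_sum, len_sum, Finset.sum_filter_add_sum_filter_not]
    rfl
  have hDf' : ∀ l, (α l).2 ≠ 0 → ∀ v, D l v ≤ Df v := by
    intro l hl v
    rw [hDf, Finsupp.finsetSum_apply]
    exact Finset.single_le_sum (f := fun l => D l v) (fun _ _ => Nat.zero_le _)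
      (Finset.mem_filter.2 ⟨Finset.mem_univ l, hl⟩)
  have hDi' : ∀ l, (α l).2 = 0 → ∀ v, D l v ≤ Di v := by
    intro l hl v
    rw [hDi, Finsupp.finsetSum_apply]
    exact Finset.single_le_sum (f := fun l => D l v) (fun _ _ => Nat.zero_le _)
      (Finset.mem_filter.2 ⟨Finset.mem_univ l, not_not.2 hl⟩)
  have hl0 := len_nonneg Df
  have hl1 := len_nonneg Di
  have hsmall : ∀ t : ℝ, t ≤ X - Real.log (2 * q / c) → Real.exp t ≤ c * Real.exp X := by
    intro t ht
    have h4 : Real.exp t ≤ c / (2 * q) * Real.exp X := by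
      refine (Real.exp_le_exp.2 ht).trans (le_of_eq ?_)
      rw [Real.exp_sub, hlog]
      field_simp
    refine h4.trans (mul_le_mul_of_nonneg_right ?_ (Real.exp_pos X).le)
    refine div_le_self hc.le ?_
    linarith
  -- the second coordinate
  obtain ⟨FB, hFB, hFBc⟩ := hcos R (idl Di) 0 hR1 (idl_ne _) (by
    rw [absNorm_idl, hRd]
    exact hsmall _ (by linarith))
  -- the first coordinate
  obtain ⟨y, hy⟩ := crt A B D hD (fun l => (α l).2 ≠ 0)
    (fun l hl v hv => hT2 l hl v (hDz l v hv).2)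
  have hex : ∀ b : 𝓞 K, ∃ A : Finset (𝓞 K),
      (∀ a ∈ A, a - b * y ∈ idl Df ∧ ∀ w : InfinitePlace K, R / 2 ≤ w a ∧ w a ≤ R) ∧
      c * (R ^ Module.finrank ℚ K / Ideal.absNorm (idl Df)) ≤ A.card := by
    intro b
    refine hcos R (idl Df) (b * y) hR1 (idl_ne _) ?_
    rw [absNorm_idl, hRd]
    exact hsmall _ (by linarith)
  choose A' hA' hAc using hex
  set t : ℝ := X - len Df with ht
  have hAc' : ∀ b, c * Real.exp t ≤ (A' b).card := by
    intro b
    have h4 := hAc b
    rw [absNorm_idl, hRd, ← Real.exp_sub] at h4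
    exact h4
  have hA2 : 2 * q ≤ c * Real.exp t := by
    have h4 : Real.exp (Real.log (2 * q / c)) ≤ Real.exp t := Real.exp_le_exp.2 (by linarith)
    rw [hlog] at h4
    calc (2 * q : ℝ) = c * (2 * q / c) := by field_simp
      _ ≤ c * Real.exp t := mul_le_mul_of_nonneg_left h4 hc.le
  have hne : ∀ r : 𝓞 K, (∀ w : InfinitePlace K, R / 2 ≤ w r ∧ w r ≤ R) → r ≠ 0 := by
    rintro r hr rfl
    obtain ⟨w⟩ : Nonempty (InfinitePlace K) := inferInstance
    have h5 := (hr w).1
    have h6 : w ((0 : 𝓞 K) : K) = 0 := by simp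
    rw [h6] at h5
    linarith
  -- the pairs
  set Gs : 𝓞 K → Finset (𝓞 K) := fun b => (A' b).filter fun a : 𝓞 K =>
    ∀ l, (a : K) * (α l).2 - (b : K) * (α l).1 ≠ 0 with hGs
  have hGc : ∀ b : 𝓞 K, b ≠ 0 → (A' b).card ≤ (Gs b).card + q := by
    intro b hb
    have hb' : (b : K) ≠ 0 := RingOfIntegers.coe_ne_zero_iff.mpr hb
    have e1 := Finset.card_filter_add_card_filter_not (s := A' b)
      (fun a : 𝓞 K => ∀ l, (a : K) * (α l).2 - (b : K) * (α l).1 ≠ 0)
    have e2 : ((A' b).filter fun a : 𝓞 K => ¬ ∀ l, (a : K) * (α l).2 - (b : K) * (α l).1 ≠ 0).card ≤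
        q := by
      have h5 : ∀ a : 𝓞 K, a ∈ ((A' b).filter fun a : 𝓞 K =>
          ¬ ∀ l, (a : K) * (α l).2 - (b : K) * (α l).1 ≠ 0) → ∃ l, (a : K) * (α l).2 - (b : K) * (α l).1 = 0 := by
        intro a ha
        have h6 := (Finset.mem_filter.1 ha).2
        push Not at h6
        exact h6
      have hl0' : ∀ (a : 𝓞 K) (l : Fin q), (a : K) * (α l).2 - (b : K) * (α l).1 = 0 →
          (α l).2 ≠ 0 := by
        intro a l h6 h7
        rw [h7, mul_zero, zero_sub, neg_eq_zero] at h6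
        rcases mul_eq_zero.1 h6 with h8 | h8
        · exact hb' h8
        · exact hα.1 l (Prod.ext h8 h7)
      have hl : 0 < q := hq
      have : Nonempty (Fin q) := ⟨⟨0, hl⟩⟩
      choose! f hf using h5
      have h9 := Finset.card_le_card_of_injOn (t := (Finset.univ : Finset (Fin q))) f
        (fun _ _ => Finset.mem_coe.2 (Finset.mem_univ _)) (by
          intro a ha a' ha' haa
          have e3 := hf a ha
          have e4 := hf a' ha'
          rw [← haa] at e4
          have e5 := hl0' a _ e3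
          have e6 : (a : K) * (α (f a)).2 = (a' : K) * (α (f a)).2 := by
            rw [sub_eq_zero] at e3 e4
            rw [e3, e4]
          exact RingOfIntegers.coe_injective (mul_right_cancel₀ e5 e6))
      rwa [Finset.card_univ, Fintype.card_fin] at h9
    have e3 : (Gs b).card + ((A' b).filter fun a : 𝓞 K =>
        ¬ ∀ l, (a : K) * (α l).2 - (b : K) * (α l).1 ≠ 0).card = (A' b).card := e1
    omega
  set Q₀ : Finset (Σ _ : 𝓞 K, 𝓞 K) := FB.sigma Gs with hQ₀
  set ψ : (Σ _ : 𝓞 K, 𝓞 K) → K × K := fun p => ((p.2 : K), (p.1 : K)) with hψ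
  have hψinj : Function.Injective ψ := by
    rintro ⟨b, a⟩ ⟨b', a'⟩ h
    simp only [hψ, Prod.mk.injEq] at h
    obtain ⟨e1, e2⟩ := h
    have e1' : a = a' := RingOfIntegers.coe_injective e1
    have e2' : b = b' := RingOfIntegers.coe_injective e2
    subst e1' e2'
    rfl
  set Q : Finset (K × K) := Q₀.image ψ with hQ
  have hmem : ∀ p ∈ Q, ∃ o : Idl K × Idl K, Pr2 R p.1 p.2 o.1 o.2 ∧
      Of α (p.1 / p.2) ∧ ∀ l v, D l v ≠ 0 →
        fv v (p.1 * (α l).2 - p.2 * (α l).1) ≤ (Nv v) ^ (-(D l v : ℤ)) := by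
    intro p hp₀
    obtain ⟨⟨b, a⟩, hp, rfl⟩ := Finset.mem_image.1 hp₀
    rw [hQ₀, Finset.mem_sigma] at hp
    obtain ⟨hb, ha⟩ := hp
    simp only at hb ha
    obtain ⟨haA, hab⟩ := Finset.mem_filter.1 ha
    obtain ⟨hb1, hb2⟩ := hFB b hb
    obtain ⟨ha1, ha2⟩ := hA' b a haA
    rw [sub_zero] at hb1
    have ha0 := hne a ha2
    have hb0 := hne b hb2
    have hb0' : (b : K) ≠ 0 := RingOfIntegers.coe_ne_zero_iff.mpr hb0
    obtain ⟨oa, hoa⟩ := exists_od ha0
    obtain ⟨ob, hob⟩ := exists_od hb0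
    refine ⟨(oa, ob), ⟨RingOfIntegers.coe_ne_zero_iff.mpr ha0, hb0', hoa, hob,
      fun w => (ha2 w).2, fun w => (hb2 w).2, fun w => (hb2 w).1⟩, ?_, ?_⟩
    · intro l h0
      apply hab l
      have e : (a : K) * (α l).2 - (b : K) * (α l).1 =
          (b : K) * ((a : K) / (b : K) * (α l).2 - (α l).1) := by
        field_simp
      rw [e]
      have h0' : (a : K) / (b : K) * (α l).2 - (α l).1 = 0 := h0
      rw [h0', mul_zero]
    · intro l v hv
      show fv v ((a : K) * (α l).2 - (b : K) * (α l).1) ≤ _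
      obtain ⟨hvS, hvz⟩ := hDz l v hv
      by_cases hl : (α l).2 = 0
      · have h5 : fv v (α l).1 = 1 := by
          have h6 := (hG v hvS).1 l
          rw [hl, map_zero, max_eq_left ((fv v).nonneg _)] at h6
          exact h6
        rw [hl, mul_zero, zero_sub, map_neg_eq_map, map_mul, h5, mul_one]
        refine (fv_of_mem_idl hb1 v).trans ?_
        rw [zpow_le_zpow_iff_right₀ (Nv_one_lt v)]
        have := hDi' l hl v
        omega
      · have h5 : a * B l - b * A l ∈ v.asIdeal ^ (D l v) := by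
          have h6 : a * B l - b * A l = (a - b * y) * B l + b * (y * B l - A l) := by ring
          rw [h6]
          refine Ideal.add_mem _ (Ideal.mul_mem_right _ _ ?_) (Ideal.mul_mem_left _ _ (hy l hl v hv))
          exact Ideal.pow_le_pow_right (hDf' l hl v) (idl_le Df v ha1)
        have h7 := (fv_le_pow_iff v _ _).2 h5
        have h8 : ((a * B l - b * A l : 𝓞 K) : K) =
            (n l : K) * ((a : K) * (α l).2 - (b : K) * (α l).1) := by
          have e1 : ((a * B l - b * A l : 𝓞 K) : K) =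
              (a : K) * (B l : K) - (b : K) * (A l : K) := by
            rw [← map_mul, ← map_mul, ← map_sub]
          rw [e1, hA, hB]
          ring
        rw [h8, map_mul, hT1 l v hvz, one_mul] at h7
        exact h7
  choose! oo hoo using hmem
  refine (hcore X D hX hD (fun l v hv => ?_) hr Q oo hoo ?_).imp fun F hF => ⟨hF.1, ?_⟩
  · by_contra h0
    exact (hDz l v h0).1 hv
  · -- the number of the pairs
    rw [hQ, Finset.card_image_of_injective _ hψinj, hQ₀, Finset.card_sigma]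
    push_cast
    have h4 : ∀ b ∈ FB, c / 2 * Real.exp t ≤ ((Gs b).card : ℝ) := by
      intro b hb
      have h6 : ((A' b).card : ℝ) ≤ (Gs b).card + q := by
        exact_mod_cast hGc b (hne b (hFB b hb).2)
      have h7 := hAc' b
      linarith
    have h5 : c * Real.exp (X - len Di) ≤ FB.card := by
      rw [absNorm_idl, hRd, ← Real.exp_sub] at hFBc
      exact hFBc
    calc c ^ 2 / 2 * Real.exp (2 * X - tl D) =
          (c * Real.exp (X - len Di)) * (c / 2 * Real.exp t) := by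
          have : Real.exp (2 * X - tl D) = Real.exp (X - len Di) * Real.exp t := by
            rw [← Real.exp_add, htl, ht]
            congr 1
            ring
          rw [this]
          ring
      _ ≤ FB.card * (c / 2 * Real.exp t) := by
          refine mul_le_mul_of_nonneg_right h5 ?_
          positivity
      _ = ∑ b ∈ FB, c / 2 * Real.exp t := by rw [Finset.sum_const, nsmul_eq_mul]
      _ ≤ ∑ b ∈ FB, ((Gs b).card : ℝ) := Finset.sum_le_sum h4
  · refine le_trans ?_ hF.2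
    have : 0 ≤ c' * Real.exp (Real.log (2 * q / c)) * Real.exp X := by positivity
    linarith

end constr

/-- many points with given divisors -/
theorem lowq (K : Type) [Field K] [NumberField K] (h1 : S_CELLQ K) : S_LOWQ K := by
  classical
  have h2 : S_COSET K := Pool.Agent.N691.RS.coset K
  have h3 : S_CNT K := Pool.Agent.N803.RS.cnt K
  intro q α S hα hG
  rcases Nat.eq_zero_or_pos q with rfl | hq
  · obtain ⟨c₁, c, C, z₀, hc₁, hc, hC, h⟩ := lowq_pos (q := 1) (α := fun _ => ((1 : K), (0 : K)))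
      (S := S) h1 h2 h3 le_rfl
      ⟨fun _ h => one_ne_zero (congrArg Prod.fst h), fun i j hij => absurd (Subsingleton.elim i j) hij⟩
      (fun v _ => ⟨fun _ => by
        show max (fv v 1) (fv v 0) = 1
        rw [map_one, map_zero, max_eq_left zero_le_one],
        fun i j hij => absurd (Subsingleton.elim i j) hij⟩)
    refine ⟨c₁, c, C, z₀, hc₁, hc, hC, fun X D hX _ _ _ => ?_⟩
    have hsp : sp (fun _ : Fin 1 => (0 : Idl K)) = ∅ := by
      refine Finset.eq_empty_of_forall_notMem fun v hv => ?_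
      obtain ⟨l, hl⟩ := mem_sp.1 hv
      exact hl rfl
    obtain ⟨F, hF1, hF2⟩ := h X (fun _ => 0) hX (fun l l' _ v => Or.inl rfl)
      (fun l v hv => absurd rfl hv) (by
        unfold rs
        rw [hsp, Finset.sum_empty]
        exact hc₁.le)
    refine ⟨F, fun x hx => ⟨fun l => l.elim0, (hF1 x hx).2.1, fun l => l.elim0,
      ⟨fun l => l.elim0, fun l => l.elim0⟩, fun l => l.elim0⟩, ?_⟩
    have e1 : tl (fun _ : Fin 1 => (0 : Idl K)) = 0 := by
      unfold tl
      simp
    have e2 : tl D = 0 := by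
      unfold tl
      simp
    rw [e1] at hF2
    rw [e2]
    exact hF2
  · exact lowq_pos h1 h2 h3 hq hα hG

end Pool.Agent.N346.KG
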