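import Pool.Agent.N699.PC.Stm

/-!
# Leaves CS, STA and PHIA of project PC
-/

set_option autoImplicit false

namespace Pool.Agent.N346.Q3

open Finset PowerSeries Pool.Agent.N699.PC

/-- congruence modulo `X ^ K` -/
def cg (K : ℕ) (a b : ℤ⟦X⟧) : Prop := (X : ℤ⟦X⟧) ^ K ∣ a - b

lemma cg_refl (K : ℕ) (a : ℤ⟦X⟧) : cg K a a := by
  unfold cg; rw [sub_self]; exact dvd_zero _

lemma cg_symm {K : ℕ} {a b : ℤ⟦X⟧} (h : cg K a b) : cg K b a := by
  unfold cg at *; rw [← neg_sub]; exact (dvd_neg).2 h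

lemma cg_trans {K : ℕ} {a b c : ℤ⟦X⟧} (h1 : cg K a b) (h2 : cg K b c) : cg K a c := by
  unfold cg at *
  have e : a - c = (a - b) + (b - c) := by ring
  rw [e]; exact dvd_add h1 h2

lemma cg_mul {K : ℕ} {a b c d : ℤ⟦X⟧} (h1 : cg K a b) (h2 : cg K c d) :
    cg K (a * c) (b * d) := by
  unfold cg at *
  have e : a * c - b * d = (a - b) * c + b * (c - d) := by ring
  rw [e]; exact dvd_add (Dvd.dvd.mul_right h1 _) (Dvd.dvd.mul_left h2 _)

lemma cg_pow {K : ℕ} {a b : ℤ⟦X⟧} (h : cg K a b) (n : ℕ) : cg K (a ^ n) (b ^ n) := by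
  induction n with
  | zero => rw [pow_zero, pow_zero]; exact cg_refl K 1
  | succ n ih => rw [pow_succ, pow_succ]; exact cg_mul ih h

lemma cg_sum {ι : Type} (s : Finset ι) {K : ℕ} {f g : ι → ℤ⟦X⟧} (h : ∀ i ∈ s, cg K (f i) (g i)) :
    cg K (∑ i ∈ s, f i) (∑ i ∈ s, g i) := by
  unfold cg at *
  rw [← Finset.sum_sub_distrib]
  exact Finset.dvd_sum h

lemma cg_prod_one {ι : Type} (s : Finset ι) {K : ℕ} {f : ι → ℤ⟦X⟧} (h : ∀ i ∈ s, cg K (f i) 1) :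
    cg K (∏ i ∈ s, f i) 1 := by
  classical
  induction s using Finset.induction_on with
  | empty => rw [Finset.prod_empty]; exact cg_refl K 1
  | insert a s ha ih =>
    rw [Finset.prod_insert ha]
    have h1 := cg_mul (h a (Finset.mem_insert_self a s))
      (ih (fun i hi => h i (Finset.mem_insert_of_mem hi)))
    rwa [one_mul] at h1

lemma cg_le {K L : ℕ} (hKL : K ≤ L) {a b : ℤ⟦X⟧} (h : cg L a b) : cg K a b :=
  (pow_dvd_pow _ hKL).trans h

lemma mul_iv {f : ℤ⟦X⟧} (h : constantCoeff f = 1) : f * iv f = 1 :=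
  mul_invOfUnit f 1 (by rw [h]; rfl)

lemma cg_iv {K : ℕ} {f g : ℤ⟦X⟧} (hf : constantCoeff f = 1) (hg : constantCoeff g = 1)
    (h : cg K f g) : cg K (iv f) (iv g) := by
  have e : iv f - iv g = (iv f * iv g) * (g - f) := by
    have h1 := mul_iv hf
    have h2 := mul_iv hg
    linear_combination (iv g) * h1 - iv f * h2
  unfold cg
  rw [e]
  exact Dvd.dvd.mul_left (cg_symm h) _

lemma cg_sub_X {K e : ℕ} (h : K ≤ e) : cg K (1 - X ^ e : ℤ⟦X⟧) 1 := by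
  unfold cg
  have h1 : (1 - X ^ e : ℤ⟦X⟧) - 1 = -X ^ e := by ring
  rw [h1]
  exact (dvd_neg).2 (pow_dvd_pow _ h)

lemma cg_add_X {K e : ℕ} (h : K ≤ e) : cg K (1 + X ^ e : ℤ⟦X⟧) 1 := by
  unfold cg
  have h1 : (1 + X ^ e : ℤ⟦X⟧) - 1 = X ^ e := by ring
  rw [h1]
  exact pow_dvd_pow _ h

lemma cc_sub (e : ℕ) (he : 0 < e) : constantCoeff (1 - X ^ e : ℤ⟦X⟧) = 1 := by
  rw [map_sub, map_one, map_pow, constantCoeff_X, zero_pow he.ne', sub_zero]

lemma cc_add (e : ℕ) (he : 0 < e) : constantCoeff (1 + X ^ e : ℤ⟦X⟧) = 1 := by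
  rw [map_add, map_one, map_pow, constantCoeff_X, zero_pow he.ne', add_zero]

lemma cc_prod {ι : Type} (s : Finset ι) (f : ι → ℤ⟦X⟧) (h : ∀ i ∈ s, constantCoeff (f i) = 1) :
    constantCoeff (∏ i ∈ s, f i) = 1 := by
  rw [map_prod]
  exact Finset.prod_eq_one h

/-- the factors of `CN` -/
noncomputable def aa (M m : ℕ) : ℤ⟦X⟧ := ∏ i ∈ range M, (1 + X ^ (2 * m + 2 + 2 * i))
noncomputable def bb (M m : ℕ) : ℤ⟦X⟧ := ∏ i ∈ range M, (1 - X ^ (2 * m + 1 + 2 * i))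

lemma cc_bb (M m : ℕ) : constantCoeff (bb M m) = 1 :=
  cc_prod _ _ (fun _ _ => cc_sub _ (by omega))

lemma cc_pp (m : ℕ) : constantCoeff (pp m) = 1 :=
  cc_prod _ _ (fun _ _ => cc_add _ (by omega))

lemma CN_eq (M : ℕ) : CN M = ∑ m ∈ range M, X ^ (2 * m + 1) * aa M m * (iv (bb M m)) ^ 2 := rfl

lemma oo_bb (M m : ℕ) : oo m * bb M m = oo (m + M) := by
  unfold oo bb
  rw [Finset.prod_range_add]
  congr 1
  exact Finset.prod_congr rfl (fun i _ => by congr 2; ring)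

lemma pp_aa (M m : ℕ) : pp m * aa M m = pp (m + M) := by
  unfold pp aa
  rw [Finset.prod_range_add]
  congr 1
  exact Finset.prod_congr rfl (fun i _ => by congr 2; ring)

lemma oo_cg (M m : ℕ) : cg (2 * M) (oo (m + M)) (oo M) := by
  have e : oo (m + M) = oo M * ∏ i ∈ range m, (1 - X ^ (2 * (M + i) + 1) : ℤ⟦X⟧) := by
    rw [add_comm m M]
    unfold oo
    rw [Finset.prod_range_add]
  rw [e]
  have h := cg_mul (cg_refl (2 * M) (oo M)) (cg_prod_one (range m)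
    (fun i _ => cg_sub_X (K := 2 * M) (e := 2 * (M + i) + 1) (by omega)))
  rwa [mul_one] at h

lemma pp_cg (M m : ℕ) : cg (2 * M) (pp (m + M)) (pp M) := by
  have e : pp (m + M) = pp M * ∏ i ∈ range m, (1 + X ^ (2 * (M + i) + 2) : ℤ⟦X⟧) := by
    rw [add_comm m M]
    unfold pp
    rw [Finset.prod_range_add]
  rw [e]
  have h := cg_mul (cg_refl (2 * M) (pp M)) (cg_prod_one (range m)
    (fun i _ => cg_add_X (K := 2 * M) (e := 2 * (M + i) + 2) (by omega)))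
  rwa [mul_one] at h

/-- LEAF CS -/
theorem t_CS : Pool.Agent.N699.PC.CS := by
  intro M
  show cg (2 * M) (CN M * oo M ^ 2) (pp M * S M)
  have hS : pp M * S M = ∑ m ∈ range M, pp M * (X ^ (2 * m + 1) * oo m ^ 2 * iv (pp m)) := by
    unfold S
    rw [Finset.mul_sum]
  rw [hS, CN_eq, Finset.sum_mul]
  refine cg_sum _ (fun m _ => ?_)
  -- `oo M * iv (bb M m) = oo m`
  have h1 : cg (2 * M) (oo M * iv (bb M m)) (oo m) := by
    have h2 := cg_mul (cg_symm (oo_cg M m)) (cg_refl (2 * M) (iv (bb M m)))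
    rw [← oo_bb, mul_assoc, mul_iv (cc_bb M m), mul_one] at h2
    exact h2
  have h3 : cg (2 * M) (aa M m) (pp M * iv (pp m)) := by
    have h4 := cg_mul (pp_cg M m) (cg_refl (2 * M) (iv (pp m)))
    have e : pp (m + M) * iv (pp m) = aa M m := by
      rw [← pp_aa]
      linear_combination (aa M m) * mul_iv (cc_pp m)
    rwa [e] at h4
  have h5 := cg_mul (cg_mul (cg_refl (2 * M) (X ^ (2 * m + 1) : ℤ⟦X⟧)) h3) (cg_pow h1 2)
  have e1 : X ^ (2 * m + 1) * aa M m * iv (bb M m) ^ 2 * oo M ^ 2 =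
      X ^ (2 * m + 1) * aa M m * (oo M * iv (bb M m)) ^ 2 := by ring
  have e2 : pp M * (X ^ (2 * m + 1) * oo m ^ 2 * iv (pp m)) =
      X ^ (2 * m + 1) * (pp M * iv (pp m)) * oo m ^ 2 := by ring
  rw [e1, e2]
  exact h5

lemma aa_cg {n M : ℕ} (hM : n < M) (m : ℕ) : cg (n + 1) (aa M m) (aa (n + 1) m) := by
  obtain ⟨d, rfl⟩ := Nat.exists_eq_add_of_le (Nat.succ_le_of_lt hM)
  unfold aa
  rw [Finset.prod_range_add]
  have h := cg_mul (cg_refl (n + 1) (∏ i ∈ range (n + 1), (1 + X ^ (2 * m + 2 + 2 * i) : ℤ⟦X⟧)))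
    (cg_prod_one (range d) (fun i _ => cg_add_X (K := n + 1)
      (e := 2 * m + 2 + 2 * (n + 1 + i)) (by omega)))
  rwa [mul_one] at h

lemma bb_cg {n M : ℕ} (hM : n < M) (m : ℕ) : cg (n + 1) (bb M m) (bb (n + 1) m) := by
  obtain ⟨d, rfl⟩ := Nat.exists_eq_add_of_le (Nat.succ_le_of_lt hM)
  unfold bb
  rw [Finset.prod_range_add]
  have h := cg_mul (cg_refl (n + 1) (∏ i ∈ range (n + 1), (1 - X ^ (2 * m + 1 + 2 * i) : ℤ⟦X⟧)))
    (cg_prod_one (range d) (fun i _ => cg_sub_X (K := n + 1)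
      (e := 2 * m + 1 + 2 * (n + 1 + i)) (by omega)))
  rwa [mul_one] at h

/-- LEAF STA -/
theorem t_STA : Pool.Agent.N699.PC.STA := by
  intro n M hM
  have h1 : cg (n + 1) (CN M) (CN (n + 1)) := by
    have hsplit : CN M = (∑ m ∈ range (n + 1), X ^ (2 * m + 1) * aa M m * (iv (bb M m)) ^ 2) +
        ∑ m ∈ Ico (n + 1) M, X ^ (2 * m + 1) * aa M m * (iv (bb M m)) ^ 2 := by
      rw [CN_eq, Finset.sum_range_add_sum_Ico _ (Nat.succ_le_of_lt hM)]
    have h2 : cg (n + 1) (∑ m ∈ range (n + 1), X ^ (2 * m + 1) * aa M m * (iv (bb M m)) ^ 2)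
        (CN (n + 1)) := by
      rw [CN_eq]
      refine cg_sum _ (fun m _ => ?_)
      exact cg_mul (cg_mul (cg_refl _ _) (aa_cg hM m))
        (cg_pow (cg_iv (cc_bb _ _) (cc_bb _ _) (bb_cg hM m)) 2)
    have h3 : (X : ℤ⟦X⟧) ^ (n + 1) ∣
        ∑ m ∈ Ico (n + 1) M, X ^ (2 * m + 1) * aa M m * (iv (bb M m)) ^ 2 := by
      refine Finset.dvd_sum (fun m hm => ?_)
      rw [Finset.mem_Ico] at hm
      rw [mul_assoc]
      exact Dvd.dvd.mul_right (pow_dvd_pow _ (by omega)) _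
    unfold cg at *
    rw [hsplit]
    have e : ∀ a b c : ℤ⟦X⟧, a + b - c = (a - c) + b := fun a b c => by ring
    rw [e]
    exact dvd_add h2 h3
  have h2 := (X_pow_dvd_iff.1 h1) n (Nat.lt_succ_self n)
  rw [map_sub, sub_eq_zero] at h2
  exact h2

/-- LEAF PHIA -/
theorem t_PHIA : Pool.Agent.N699.PC.PHIA := by
  intro hJ hL M
  rw [hJ M]
  unfold phi
  rw [Finset.sum_mul, ← Finset.sum_sub_distrib]
  refine Finset.dvd_sum (fun k hk => ?_)
  rw [Finset.mem_range] at hk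
  have h1 := hL k M (by omega)
  have e : C (w k) * (-1) ^ k * X ^ k ^ 2 * (ee (2 * M) * iv (ee (M - k)) * iv (ee (M + k))) *
      ee M - C (w k) * (-1) ^ k * X ^ k ^ 2 =
      (C (w k) * (-1) ^ k) * (X ^ k ^ 2 *
        (ee (2 * M) * ee M * iv (ee (M - k)) * iv (ee (M + k)) - 1)) := by ring
  rw [e]
  apply Dvd.dvd.mul_left
  have h2 : (X : ℤ⟦X⟧) ^ (k ^ 2 + (2 * (M - k) + 2)) ∣ X ^ k ^ 2 *
      (ee (2 * M) * ee M * iv (ee (M - k)) * iv (ee (M + k)) - 1) := by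
    rw [pow_add]
    exact mul_dvd_mul_left _ h1
  refine (pow_dvd_pow _ ?_).trans h2
  have h3 : 2 * k ≤ k ^ 2 + 1 := by nlinarith [sq_nonneg ((k : ℤ) - 1)]
  omega

end Pool.Agent.N346.Q3
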