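import Pool.Agent.N657.QR.Stm

/-!
# FSH: the matrix inequality for shift operators on `ℤ^V`, from FIN
-/

set_option autoImplicit false

namespace Pool.Agent.N346.QR_FSH

open Finset Pool.Agent.N657.QR

/-- a sum over pairs with finite support in a product -/
theorem tsum_fin {α β : Type} (X : Finset α) (Y : Finset β) (G : α → β → ℝ)
    (hG : ∀ p q, G p q ≠ 0 → p ∈ X ∧ q ∈ Y) :
    ∑' z : α × β, G z.1 z.2 = ∑ p ∈ X, ∑ q ∈ Y, G p q := by
  rw [tsum_eq_sum (s := X ×ˢ Y), Finset.sum_product]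
  rintro ⟨p, q⟩ hz
  by_contra h
  exact hz (Finset.mem_product.2 (hG p q h))

theorem inner_sum {α β ι κ : Type} [DecidableEq α] [DecidableEq β] [Fintype ι] [Fintype κ]
    (X : Finset α) (Y : Finset β) (M : α → β → ℝ)
    (hM : ∀ p q, M p q ≠ 0 → p ∈ X ∧ q ∈ Y) (a : ι → ℝ) (b : κ → ℝ) (u : ι → α) (v : κ → β) :
    ∑ p' ∈ X, ∑ q' ∈ Y, (∑ i, if p' = u i then a i else 0) * M p' q' *
      (∑ j, if q' = v j then b j else 0) = ∑ i, ∑ j, a i * b j * M (u i) (v j) := by
  have h1 : ∀ i j, ∑ p' ∈ X, ∑ q' ∈ Y, (if p' = u i then a i else 0) * M p' q' *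
      (if q' = v j then b j else 0) = a i * b j * M (u i) (v j) := by
    intro i j
    have h2 : ∀ p' ∈ X, ∑ q' ∈ Y, (if p' = u i then a i else 0) * M p' q' *
        (if q' = v j then b j else 0) = if p' = u i then a i * b j * M (u i) (v j) else 0 := by
      intro p' _
      by_cases hp : p' = u i
      · subst hp
        simp only [if_true]
        by_cases hv : v j ∈ Y
        · rw [Finset.sum_eq_single (v j)]
          · rw [if_pos rfl]; ring
          · intro q' _ hq; rw [if_neg hq, mul_zero]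
          · intro h; exact absurd hv h
        · have h3 : M (u i) (v j) = 0 := by
            by_contra h
            exact hv (hM _ _ h).2
          rw [h3, mul_zero]
          refine Finset.sum_eq_zero fun q' hq' => ?_
          rw [if_neg, mul_zero]
          rintro rfl
          exact hv hq'
      · simp only [if_neg hp, zero_mul, Finset.sum_const_zero]
    rw [Finset.sum_congr rfl h2]
    by_cases hu : u i ∈ X
    · rw [Finset.sum_ite_eq' X (u i), if_pos hu]
    · have h3 : M (u i) (v j) = 0 := by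
        by_contra h
        exact hu (hM _ _ h).1
      rw [h3, mul_zero]
      refine Finset.sum_eq_zero fun p' _ => ?_
      rw [ite_self]
  calc ∑ p' ∈ X, ∑ q' ∈ Y, (∑ i, if p' = u i then a i else 0) * M p' q' *
      (∑ j, if q' = v j then b j else 0)
      = ∑ p' ∈ X, ∑ q' ∈ Y, ∑ i, ∑ j, (if p' = u i then a i else 0) * M p' q' *
          (if q' = v j then b j else 0) := by
        refine Finset.sum_congr rfl fun p' _ => Finset.sum_congr rfl fun q' _ => ?_
        rw [Finset.sum_mul, Finset.sum_mul]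
        refine Finset.sum_congr rfl fun i _ => ?_
        rw [Finset.mul_sum]
    _ = ∑ p' ∈ X, ∑ i, ∑ j, ∑ q' ∈ Y, (if p' = u i then a i else 0) * M p' q' *
          (if q' = v j then b j else 0) := by
        refine Finset.sum_congr rfl fun p' _ => ?_
        rw [Finset.sum_comm]
        refine Finset.sum_congr rfl fun i _ => ?_
        rw [Finset.sum_comm]
    _ = ∑ i, ∑ j, ∑ p' ∈ X, ∑ q' ∈ Y, (if p' = u i then a i else 0) * M p' q' *
          (if q' = v j then b j else 0) := by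
        rw [Finset.sum_comm]
        refine Finset.sum_congr rfl fun i _ => ?_
        rw [Finset.sum_comm]
    _ = _ := Finset.sum_congr rfl fun i _ => Finset.sum_congr rfl fun j _ => h1 i j

/-- the quadrilinear sum -/
theorem quad {α β ι κ : Type} [DecidableEq α] [DecidableEq β] [Fintype ι] [Fintype κ]
    (X : Finset α) (Y : Finset β) (M : α → β → ℝ)
    (hM : ∀ p q, M p q ≠ 0 → p ∈ X ∧ q ∈ Y) (c : ι → α → ℝ) (d : κ → β → ℝ)
    (u : ι → α → α) (v : κ → β → β) :
    ∑' z : α × β, M z.1 z.2 * ∑ i, ∑ j, c i z.1 * d j z.2 * M (u i z.1) (v j z.2) =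
    ∑ p ∈ X, ∑ q ∈ Y, ∑ p' ∈ X, ∑ q' ∈ Y,
      M p q * (∑ i, if p' = u i p then c i p else 0) * M p' q' *
        (∑ j, if q' = v j q then d j q else 0) := by
  rw [tsum_fin X Y (fun p q => M p q * ∑ i, ∑ j, c i p * d j q * M (u i p) (v j q))]
  · refine Finset.sum_congr rfl fun p _ => Finset.sum_congr rfl fun q _ => ?_
    rw [← inner_sum X Y M hM (fun i => c i p) (fun j => d j q) (fun i => u i p) (fun j => v j q),
      Finset.mul_sum]
    refine Finset.sum_congr rfl fun p' _ => ?_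
    rw [Finset.mul_sum]
    refine Finset.sum_congr rfl fun q' _ => ?_
    ring
  · intro p q h
    exact hM p q (left_ne_zero_of_mul h)

theorem fs2_of {V : Type} [Fintype V] [DecidableEq V] (X Y : Finset (V → ℤ))
    (P : (V → ℤ) → (V → ℤ) → ℝ) (h : ∀ p q, P p q ≠ 0 → p ∈ X ∧ q ∈ Y) : fs2 P := by
  refine (X ×ˢ Y).finite_toSet.subset ?_
  rintro ⟨p, q⟩ hz
  exact Finset.mem_coe.2 (Finset.mem_product.2 (h p q hz))

theorem main (hF : S_FIN) : S_FSH := by
  intro V γ _ _ M r s A B hfs hM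
  classical
  set A0 : Finset (V → ℤ) := hfs.toFinset.image Prod.fst with hA0
  set B0 : Finset (V → ℤ) := hfs.toFinset.image Prod.snd with hB0
  have hmem : ∀ p q, M p q ≠ 0 → p ∈ A0 ∧ q ∈ B0 := by
    intro p q h
    have h1 : (p, q) ∈ hfs.toFinset := hfs.mem_toFinset.2 h
    exact ⟨Finset.mem_image_of_mem Prod.fst h1, Finset.mem_image_of_mem Prod.snd h1⟩
  have hA : ∀ p ∈ A0, p ∈ A := by
    intro p hp
    obtain ⟨⟨p', q⟩, h1, rfl⟩ := Finset.mem_image.1 hp
    exact (hM _ _ (hfs.mem_toFinset.1 h1)).1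
  have hB : ∀ q ∈ B0, q ∈ B := by
    intro q hq
    obtain ⟨⟨p, q'⟩, h1, rfl⟩ := Finset.mem_image.1 hq
    exact (hM _ _ (hfs.mem_toFinset.1 h1)).2.1
  obtain ⟨P, Q, hPs, hQs, hP, hQ, hPP, hQQ, hin⟩ := hF A0 B0 M r s
    (fun p q h => ⟨(hmem p q h).1, (hmem p q h).2, (hM p q h).2.2⟩)
  have hP' : ∀ p q, P p q ≠ 0 → p ∈ A0 ∧ q ∈ A0 := fun p q h => ⟨(hP p q h).1, (hP p q h).2.1⟩
  have hQ' : ∀ p q, Q p q ≠ 0 → p ∈ B0 ∧ q ∈ B0 := fun p q h => ⟨(hQ p q h).1, (hQ p q h).2.1⟩
  refine ⟨P, Q, fs2_of A0 A0 P hP', fs2_of B0 B0 Q hQ', hPs, hQs,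
    fun p p' h => ⟨hA _ (hP p p' h).1, hA _ (hP p p' h).2.1, (hP p p' h).2.2⟩,
    fun q q' h => ⟨hB _ (hQ q q' h).1, hB _ (hQ q q' h).2.1, (hQ q q' h).2.2⟩, ?_, ?_, ?_⟩
  · intro h η
    rw [tsum_fin A0 B0 (fun p q => h p * (M (p + η) q * M p q)),
      tsum_fin A0 A0 (fun p q => h p * (P (p + η) q * P p q))]
    · refine Finset.sum_congr rfl fun p _ => ?_
      rw [← Finset.mul_sum, ← Finset.mul_sum, hPP]
    · intro p q h1
      exact hP' p q (right_ne_zero_of_mul (right_ne_zero_of_mul h1))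
    · intro p q h1
      exact hmem p q (right_ne_zero_of_mul (right_ne_zero_of_mul h1))
  · intro h η
    rw [tsum_fin A0 B0 (fun p q => h q * (M p (q + η) * M p q)),
      tsum_fin B0 B0 (fun p q => h p * (Q (p + η) q * Q p q)), Finset.sum_comm]
    · refine Finset.sum_congr rfl fun q _ => ?_
      rw [← Finset.mul_sum, ← Finset.mul_sum, hQQ]
    · intro p q h1
      exact hQ' p q (right_ne_zero_of_mul (right_ne_zero_of_mul h1))
    · intro p q h1
      exact hmem p q (right_ne_zero_of_mul (right_ne_zero_of_mul h1))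
  · intro ι _ c d η ζ
    rw [quad A0 B0 M hmem c d (fun i p => p + η i) (fun j q => q + ζ j),
      quad A0 A0 P hP' c c (fun i p => p + η i) (fun j q => q + η j),
      quad B0 B0 Q hQ' d d (fun i p => p + ζ i) (fun j q => q + ζ j)]
    exact hin (fun p p' => ∑ i, if p' = p + η i then c i p else 0)
      (fun q q' => ∑ j, if q' = q + ζ j then d j q else 0)

end Pool.Agent.N346.QR_FSH
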