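import Pool.Agent.N502.TM.Stm

/-! # Project TM, INV: left invariant probability measures on the orthogonal group are right
invariant -/

set_option autoImplicit false

namespace Pool.Agent.N346.TM

open MeasureTheory Set Filter Topology
open scoped ENNReal
open Pool.Agent.N502.TM

theorem map_inv_eq {G : Type} [Group G] [MeasurableSpace G] [MeasurableMul₂ G] [MeasurableInv G]
    (ν : Measure G) [IsProbabilityMeasure ν] [ν.IsMulLeftInvariant] (s : Set G)
    (hs : MeasurableSet s) : ν s = ν ((fun g => g⁻¹) ⁻¹' s) := by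
  have hind : Measurable (s.indicator (1 : G → ℝ≥0∞)) := measurable_one.indicator hs
  have h1 : ∫⁻ h, ∫⁻ g, s.indicator (1 : G → ℝ≥0∞) (h⁻¹ * g) ∂ν ∂ν = ν s := by
    have : ∀ h : G, ∫⁻ g, s.indicator (1 : G → ℝ≥0∞) (h⁻¹ * g) ∂ν = ν s := by
      intro h
      rw [lintegral_mul_left_eq_self (μ := ν) (s.indicator (1 : G → ℝ≥0∞)) h⁻¹,
        lintegral_indicator_one hs]
    simp_rw [this]
    simp
  have h2 : ∫⁻ g, ∫⁻ h, s.indicator (1 : G → ℝ≥0∞) (h⁻¹ * g) ∂ν ∂ν =
      ν ((fun g => g⁻¹) ⁻¹' s) := by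
    have : ∀ g : G, ∫⁻ h, s.indicator (1 : G → ℝ≥0∞) (h⁻¹ * g) ∂ν =
        ν ((fun g => g⁻¹) ⁻¹' s) := by
      intro g
      have e : ∀ h : G, s.indicator (1 : G → ℝ≥0∞) (h⁻¹ * g) =
          ((fun g => g⁻¹) ⁻¹' s).indicator (1 : G → ℝ≥0∞) (g⁻¹ * h) := by
        intro h
        have e2 : (g⁻¹ * h)⁻¹ = h⁻¹ * g := by rw [mul_inv_rev, inv_inv]
        have e3 : (g⁻¹ * h ∈ (fun g : G => g⁻¹) ⁻¹' s) ↔ h⁻¹ * g ∈ s := by
          rw [mem_preimage, e2]
        by_cases h3 : h⁻¹ * g ∈ s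
        · rw [indicator_of_mem h3, indicator_of_mem (e3.2 h3)]
          rfl
        · rw [indicator_of_notMem h3, indicator_of_notMem (fun h4 => h3 (e3.1 h4))]
      simp_rw [e]
      rw [lintegral_mul_left_eq_self (μ := ν) (((fun g => g⁻¹) ⁻¹' s).indicator
        (1 : G → ℝ≥0∞)) g⁻¹, lintegral_indicator_one (measurable_inv hs)]
    simp_rw [this]
    simp
  rw [← h1, ← h2]
  refine lintegral_lintegral_swap ?_
  refine (hind.comp ?_).aemeasurable
  exact (measurable_fst.inv).mul measurable_snd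

theorem main : S_INV := by
  intro d ν hp hL
  refine ⟨fun g => ?_⟩
  ext s hs
  rw [Measure.map_apply (measurable_mul_const g) hs, map_inv_eq ν _ (measurable_mul_const g hs),
    map_inv_eq ν s hs]
  have e : (fun h : O d => h⁻¹) ⁻¹' ((fun x => x * g) ⁻¹' s) =
      (fun h => g⁻¹ * h) ⁻¹' ((fun h : O d => h⁻¹) ⁻¹' s) := by
    ext h
    simp only [mem_preimage, mul_inv_rev, inv_inv]
  rw [e]
  exact measure_preimage_mul ν g⁻¹ _

end Pool.Agent.N346.TM
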